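import Pool.Agent.Helper96.CT.Stmts3
import Pool.Agent.Helper18.CT.SL

/-!
# Row CH: the chain of cliques (after helper18's row SL)
-/

set_option autoImplicit false

namespace Pool.Agent.Helper60.CT

open SimpleGraph Pool.Agent.Helper96.CT Pool.Agent.Helper18.CT

theorem ch_chain (t d : ℕ) : Chain (slG t d) d (fun x => x.1.val) := by
  refine ⟨?_, ?_, ?_⟩
  · intro i I hI
    have h1 : I.card ≤ (Finset.univ : Finset (Fin d)).card := by
      apply Finset.card_le_card_of_injOn (fun x => x.2)
        (fun _ _ => Finset.mem_coe.2 (Finset.mem_univ _))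
      intro x hx y hy hxy
      have e1 := hI x hx
      have e2 := hI y hy
      exact Prod.ext (Fin.ext (e1.trans e2.symm)) hxy
    simpa using h1
  · rintro u v h
    rw [sl_adj] at h
    rcases h with h | h | h
    · exact Or.inl (congrArg Fin.val h.1)
    · exact Or.inr (Or.inl h.1)
    · exact Or.inr (Or.inr h.1)
  · rintro u v u' v' h h' e e' e0
    rw [sl_adj] at h h'
    simp only at e e' e0
    have k1 : u.2.val = 0 ∧ v.2.val = 1 := by
      rcases h with h | h | h
      · have := congrArg Fin.val h.1
        omega
      · exact h.2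
      · omega
    have k2 : u'.2.val = 0 ∧ v'.2.val = 1 := by
      rcases h' with h | h | h
      · have := congrArg Fin.val h.1
        omega
      · exact h.2
      · omega
    exact ⟨Prod.ext (Fin.ext e0) (Fin.ext (by omega)),
      Prod.ext (Fin.ext (by omega)) (Fin.ext (by omega))⟩

theorem st_CH : ST_CH := by
  intro t d ht hd
  have z0 : 0 < t := by omega
  have y0 : 0 < d := by omega
  refine ⟨Fin t × Fin d, inferInstance, slG t d, fun x => x.1.val, by simp, ?_, ?_, ?_,
    ch_chain t d⟩
  · rw [connected_iff_exists_forall_reachable]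
    refine ⟨(⟨0, z0⟩, ⟨0, y0⟩), ?_⟩
    rintro ⟨⟨i, hi⟩, a⟩
    induction i generalizing a with
    | zero => exact sl_same _ _ _
    | succ i ih =>
      have h1 := ih ⟨0, y0⟩ (by omega)
      have h2 : (slG t d).Reachable (⟨i, by omega⟩, ⟨0, y0⟩) (⟨i + 1, hi⟩, ⟨1, by omega⟩) :=
        SimpleGraph.Adj.reachable ((sl_adj _ _).2 (Or.inr (Or.inl ⟨rfl, rfl, rfl⟩)))
      exact (h1.trans h2).trans (sl_same _ _ _)
  · rw [connected_iff_exists_forall_reachable]
    refine ⟨(⟨0, z0⟩, ⟨1, by omega⟩), ?_⟩
    have key : ∀ (j : Fin t) (b : Fin d), 1 ≤ j.val →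
        (slG t d)ᶜ.Adj (⟨0, z0⟩, ⟨1, by omega⟩) (j, b) := by
      intro j b hj
      rw [compl_adj]
      refine ⟨?_, ?_⟩
      · intro h
        have h1 := congrArg (fun x => x.1.val) h
        simp only at h1
        omega
      · rw [sl_adj]
        rintro (h | h | h)
        · have h1 := congrArg Fin.val h.1
          simp only at h1
          omega
        · have h1 := h.2.1
          simp only at h1
          omega
        · have h1 := h.1
          simp only at h1
          omega
    rintro ⟨⟨i, hi⟩, a⟩
    rcases Nat.eq_zero_or_pos i with h0 | h0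
    · subst h0
      have h1 := (key ⟨1, by omega⟩ ⟨0, y0⟩ le_rfl).reachable
      have h2 : (slG t d)ᶜ.Adj (⟨1, by omega⟩, ⟨0, y0⟩) (⟨0, hi⟩, a) := by
        rw [compl_adj]
        refine ⟨?_, ?_⟩
        · intro h
          have h1 := congrArg (fun x => x.1.val) h
          simp only at h1
          omega
        · rw [sl_adj]
          rintro (h | h | h)
          · have h1 := congrArg Fin.val h.1
            simp only at h1
            omega
          · have h1 := h.1
            simp only at h1
            omega
          · have h1 := h.2.2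
            simp only at h1
            omega
      exact h1.trans h2.reachable
    · exact (key ⟨i, hi⟩ a h0).reachable
  · intro I hI
    have h1 : I.card ≤ (Finset.univ : Finset (Fin t)).card := by
      apply Finset.card_le_card_of_injOn (fun x => x.1) (fun _ _ => Finset.mem_coe.2 (Finset.mem_univ _))
      intro x hx y hy hxy
      by_contra hne
      apply hI x hx y hy hne
      rw [sl_adj]
      refine Or.inl ⟨hxy, ?_⟩
      intro h
      exact hne (Prod.ext hxy h)
    simpa using h1

end Pool.Agent.Helper60.CT
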