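import Pool.Agent.Helper96.CT.Stmts2

/-!
# Row PQ: the end of a longest path of a tree
-/

set_option autoImplicit false

namespace Pool.Agent.Helper60.CT

open SimpleGraph Pool.Agent.Helper96.CT

theorem pq_ext {W : Type} {T : SimpleGraph W} (hT : T.IsAcyclic) {u w x b : W} (h : T.Adj u w)
    (h' : T.Adj w x) (Q : T.Walk x b) (hQ : (Walk.cons h' Q).IsPath) (hne : u ≠ x) :
    (Walk.cons h (Walk.cons h' Q)).IsPath := by
  classical
  rw [Walk.cons_isPath_iff]
  refine ⟨hQ, fun hu => ?_⟩
  have h1 : ((Walk.cons h' Q).takeUntil u hu).IsPath := hQ.takeUntil hu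
  have h2 : (Walk.cons h.symm Walk.nil : T.Walk w u).IsPath := by
    rw [Walk.cons_isPath_iff]
    refine ⟨Walk.IsPath.nil, ?_⟩
    simp only [Walk.support_nil, List.mem_singleton]
    exact h.ne'
  have h3 : (Walk.cons h' Q).takeUntil u hu = Walk.cons h.symm Walk.nil :=
    congrArg Subtype.val (hT.path_unique ⟨_, h1⟩ ⟨_, h2⟩)
  have h4 := Walk.take_spec (Walk.cons h' Q) hu
  rw [h3] at h4
  have h5 := congrArg Walk.snd h4
  simp at h5
  exact hne h5

theorem pq_max {W : Type} [Fintype W] (T : SimpleGraph W) (v : W) :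
    ∃ (a b : W) (P : T.Walk a b), P.IsPath ∧
      ∀ (a' b' : W) (P' : T.Walk a' b'), P'.IsPath → P'.length ≤ P.length := by
  have h1 : {n : ℕ | ∃ (a b : W) (P : T.Walk a b), P.IsPath ∧ P.length = n}.Nonempty :=
    ⟨0, v, v, Walk.nil, Walk.IsPath.nil, rfl⟩
  have h2 : BddAbove {n : ℕ | ∃ (a b : W) (P : T.Walk a b), P.IsPath ∧ P.length = n} := by
    refine ⟨Fintype.card W, ?_⟩
    rintro n ⟨a, b, P, hP, rfl⟩
    exact hP.length_lt.le
  obtain ⟨a, b, P, hP, hn⟩ := Nat.sSup_mem h1 h2
  refine ⟨a, b, P, hP, fun a' b' P' hP' => ?_⟩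
  rw [hn]
  exact le_csSup h2 ⟨a', b', P', hP', rfl⟩

/-- a path from `p` to a vertex not adjacent and not equal -/
theorem pq_two {W : Type} {T : SimpleGraph W} {p w : W} (Q : T.Walk p w) (h1 : w ≠ p)
    (h2 : ¬ T.Adj p w) : ∃ (x y : W) (h : T.Adj p x) (h' : T.Adj x y) (R : T.Walk y w),
      Q = Walk.cons h (Walk.cons h' R) := by
  cases Q with
  | nil => exact absurd rfl h1
  | cons h Q' =>
    cases Q' with
    | nil => exact absurd h h2
    | cons h' R => exact ⟨_, _, h, h', R, rfl⟩

theorem st_PQ : ST_PQ := by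
  classical
  intro W _ T hT hs
  obtain ⟨hc, ha⟩ := hT
  obtain ⟨v⟩ := hc.nonempty
  obtain ⟨a, b, P, hP, hmax⟩ := pq_max T v
  have two : ∀ p : W, ∃ (x y w : W) (h : T.Adj p x) (h' : T.Adj x y) (R : T.Walk y w),
      (Walk.cons h (Walk.cons h' R)).IsPath := by
    intro p
    obtain ⟨w, hw1, hw2⟩ := hs p
    obtain ⟨Q, hQ⟩ := (hc.preconnected p w).exists_isPath
    obtain ⟨x, y, h, h', R, e⟩ := pq_two Q hw1 hw2
    exact ⟨x, y, w, h, h', R, e ▸ hQ⟩
  obtain ⟨x0, y0, w0, h0, h0', R0, hR0⟩ := two a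
  have hlen2 : 2 ≤ P.length := by
    have := hmax _ _ _ hR0
    simp only [Walk.length_cons] at this
    omega
  cases P with
  | nil => simp at hlen2
  | cons h1 P1 =>
    rename_i p
    cases P1 with
    | nil => simp at hlen2
    | cons h2 P2 =>
      rename_i p'
      have hap' : a ≠ p' := by
        intro e
        rw [Walk.cons_isPath_iff] at hP
        apply hP.2
        simp [e]
      obtain ⟨x, y, w, g, g', R, hR⟩ := two p
      have hlen3 : 3 ≤ (Walk.cons h1 (Walk.cons h2 P2)).length := by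
        by_cases hax : a = x
        · have e1 : p' ≠ x := fun e => hap' (hax.trans e.symm)
          have := hmax _ _ _ (pq_ext ha h2.symm g _ hR e1)
          simp only [Walk.length_cons] at this ⊢
          omega
        · have := hmax _ _ _ (pq_ext ha h1 g _ hR hax)
          simp only [Walk.length_cons] at this ⊢
          omega
      cases P2 with
      | nil => simp at hlen3
      | cons h3 P3 =>
        rename_i q
        have hP' := hP
        rw [Walk.cons_isPath_iff] at hP'
        obtain ⟨hP1, hP1'⟩ := hP'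
        refine ⟨p, p', q, h2, h3, ?_, ?_, a, h1.symm, hap'⟩
        · intro e
          rw [Walk.cons_isPath_iff] at hP1
          apply hP1.2
          simp [e]
        · intro w hw hwp u hwu
          by_contra hup
          have k1 : (Walk.cons hw.symm (Walk.cons h2 (Walk.cons h3 P3))).IsPath :=
            pq_ext ha hw.symm h2 _ hP1 hwp
          have k2 := pq_ext ha hwu.symm hw.symm _ k1 hup
          have := hmax _ _ _ k2
          simp only [Walk.length_cons] at this
          omega

end Pool.Agent.Helper60.CT
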